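import Mathlib

set_option autoImplicit false

namespace Pool.Agent.Results.MP_28bf3c_nt.No

open MeasureTheory ProbabilityTheory Filter Topology

/-- the `n`-th digit (`n ≥ 1`) after the point of `y` in base `b` -/
noncomputable def digit (b : ℕ) (y : ℝ) (n : ℕ) : ℤ := ⌊y * (b : ℝ) ^ n⌋ % (b : ℤ)

/-- normality in base `b` -/
def IsNormal (b : ℕ) (y : ℝ) : Prop :=
  ∀ k : ℕ, 1 ≤ k → ∀ w : Fin k → Fin b,
    Tendsto (fun N : ℕ => (((Finset.Icc 1 N).filter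
      (fun n => ∀ i : Fin k, digit b y (n + i.val) = ((w i).val : ℤ))).card : ℝ) / N)
      atTop (𝓝 (1 / (b : ℝ) ^ k))

/-- absolute normality -/
def AbsNormal (y : ℝ) : Prop := ∀ b : ℕ, 2 ≤ b → IsNormal b y

/-- law of independent bits `ω n` with `P (ω n = true) = p n` -/
noncomputable def law (p : ℕ → unitInterval) : Measure (ℕ → Bool) :=
  Measure.infinitePi (fun n => bernoulliMeasure true false (p n))

/-- `X = ∑_{n ≥ 1} ξ_n 2^{-n}` -/
noncomputable def XX (ω : ℕ → Bool) : ℝ :=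
  ∑' n : ℕ, (if ω (n + 1) then (1 : ℝ) else 0) / 2 ^ (n + 1)

/-- `R_d(s)`: sum over `d`-element sets of positive integers with sum `s` of the product of
`v_i = p_i (1 - p_i)` -/
noncomputable def R (p : ℕ → unitInterval) (d s : ℕ) : ℝ :=
  ∑ I ∈ (Finset.powersetCard d (Finset.Icc 1 s)).filter (fun I => ∑ i ∈ I, i = s),
    ∏ i ∈ I, ((p i : ℝ) * (1 - p i))

/-- the probabilities -/
noncomputable def pp (n : ℕ) : ℝ :=
  if n < 8 * 16 ^ Nat.log 16 n then 1 / (16 * 32 ^ Nat.log 16 n) else 1 / 2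

theorem small (k : ℕ) : (1 : ℝ) / (16 * 32 ^ k) ≤ 1 / 2 := by
  have : (1 : ℝ) ≤ 32 ^ k := one_le_pow₀ (by norm_num)
  apply one_div_le_one_div_of_le <;> linarith

theorem pp_ge (n : ℕ) : 1 / (16 * 32 ^ Nat.log 16 n) ≤ pp n := by
  unfold pp; split_ifs
  · exact le_rfl
  · exact small _

theorem pp_le (n : ℕ) : pp n ≤ 1 / 2 := by
  unfold pp; split_ifs
  · exact small _
  · exact le_rfl

theorem pp_pos (n : ℕ) : 0 ≤ pp n := le_trans (by positivity) (pp_ge n)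

/-- the probabilities in the unit interval -/
noncomputable def P (n : ℕ) : unitInterval := ⟨pp n, pp_pos n, by linarith [pp_le n]⟩

theorem log_eq (k n : ℕ) (h1 : 16 ^ k ≤ n) (h2 : n < 16 * 16 ^ k) : Nat.log 16 n = k :=
  Nat.log_eq_of_pow_le_of_lt_pow h1 (by rw [pow_succ]; omega)

theorem R_ge (j s : ℕ) (h1 : 64 * 16 ^ j ≤ s) (h2 : s < 1024 * 16 ^ j) :
    (8 : ℝ) ^ j / 32768 ≤ R P 3 s := by
  obtain ⟨M, hM⟩ : ∃ M : ℕ, M = 16 ^ j := ⟨_, rfl⟩
  have hM0 : 0 < M := by rw [hM]; positivity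
  rw [← hM] at h1 h2
  have hv : ∀ i, 0 ≤ ((P i : ℝ) * (1 - P i)) := fun i =>
    mul_nonneg (P i).2.1 (by linarith [(P i).2.2])
  have hb : ∀ b, 8 * M ≤ b → b < 16 * M → ((P b : ℝ) * (1 - P b)) = 1 / 4 := by
    intro b a1 a2
    have : pp b = 1 / 2 := by
      unfold pp
      rw [log_eq j b (by omega) (by omega), if_neg (by omega)]
    show pp b * (1 - pp b) = _
    rw [this]; norm_num
  have hh : ∀ h, h < 1024 * M → 1 / (32 * 32 ^ (j + 2)) ≤ ((P h : ℝ) * (1 - P h)) := by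
    intro h a
    have l : Nat.log 16 h ≤ j + 2 := by
      apply Nat.le_of_lt_succ
      apply Nat.log_lt_of_lt_pow' (by omega)
      rw [show (j + 2).succ = j + 3 from rfl, pow_add]; omega
    have b1 : (1 : ℝ) / (16 * 32 ^ (j + 2)) ≤ pp h := by
      refine le_trans ?_ (pp_ge h)
      gcongr; norm_num
    have b2 := pp_le h
    have b3 := pp_pos h
    show _ ≤ pp h * (1 - pp h)
    have : (1 : ℝ) / (32 * 32 ^ (j + 2)) = 1 / (16 * 32 ^ (j + 2)) / 2 := by field_simp; norm_num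
    rw [this]; nlinarith
  have hsub : ((Finset.Ico (8 * M) (12 * M) ×ˢ Finset.Ico (12 * M) (16 * M)).image
      (fun x : ℕ × ℕ => ({x.1, x.2, s - x.1 - x.2} : Finset ℕ))) ⊆
      (Finset.powersetCard 3 (Finset.Icc 1 s)).filter (fun I => ∑ i ∈ I, i = s) := by
    intro I hI
    simp only [Finset.mem_image, Finset.mem_product, Finset.mem_Ico] at hI
    obtain ⟨⟨a, b⟩, ⟨⟨a1, a2⟩, b1, b2⟩, rfl⟩ := hI
    simp only at a1 a2 b1 b2 ⊢
    rw [Finset.mem_filter, Finset.mem_powersetCard]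
    refine ⟨⟨?_, ?_⟩, ?_⟩
    · intro x hx
      simp only [Finset.mem_insert, Finset.mem_singleton] at hx
      rw [Finset.mem_Icc]; omega
    · exact Finset.card_eq_three.2 ⟨_, _, _, by omega, by omega, by omega, rfl⟩
    · rw [Finset.sum_insert (by simp; omega), Finset.sum_pair (by omega)]; omega
  refine le_trans ?_ (Finset.sum_le_sum_of_subset_of_nonneg hsub
    fun I _ _ => Finset.prod_nonneg fun i _ => hv i)
  rw [Finset.sum_image]
  · have := Finset.card_nsmul_le_sum (Finset.Ico (8 * M) (12 * M) ×ˢ Finset.Ico (12 * M) (16 * M))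
      (fun x : ℕ × ℕ => ∏ i ∈ ({x.1, x.2, s - x.1 - x.2} : Finset ℕ), ((P i : ℝ) * (1 - P i)))
      (1 / 16 * (1 / (32 * 32 ^ (j + 2)))) (by
        rintro ⟨a, b⟩ hx
        simp only [Finset.mem_product, Finset.mem_Ico] at hx
        obtain ⟨⟨a1, a2⟩, b1, b2⟩ := hx
        simp only
        rw [Finset.prod_insert (by simp; omega), Finset.prod_pair (by omega),
          hb a a1 (by omega), hb b (by omega) b2]
        linarith [hh (s - a - b) (by omega)])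
    refine le_trans (le_of_eq ?_) this
    rw [Finset.card_product, Nat.card_Ico, Nat.card_Ico, show 12 * M - 8 * M = 4 * M by omega,
      show 16 * M - 12 * M = 4 * M by omega, nsmul_eq_mul, hM]
    push_cast
    have e1 : (16 : ℝ) ^ j * 16 ^ j = 8 ^ j * 32 ^ j := by rw [← mul_pow, ← mul_pow]; norm_num
    field_simp
    rw [pow_add]
    linear_combination (-(2 ^ 19)) * e1
  · rintro ⟨a, b⟩ hx ⟨a', b'⟩ hx' h
    simp only [Finset.coe_product, Finset.coe_Ico, Set.mem_prod, Set.mem_Ico] at hx hx'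
    simp only at h
    have m1 : a ∈ ({a', b', s - a' - b'} : Finset ℕ) := by rw [← h]; simp
    have m2 : b ∈ ({a', b', s - a' - b'} : Finset ℕ) := by rw [← h]; simp
    simp only [Finset.mem_insert, Finset.mem_singleton] at m1 m2
    exact Prod.ext (by simp only; omega) (by simp only; omega)

theorem R_sq (s : ℕ) (hs : 64 ≤ s) : (s : ℝ) ≤ 2 ^ 40 * R P 3 s ^ 2 ∧ 0 ≤ R P 3 s := by
  obtain ⟨j, hj⟩ : ∃ j, j = Nat.log 16 (s / 64) := ⟨_, rfl⟩
  have h1 : 16 ^ j ≤ s / 64 := by rw [hj]; exact Nat.pow_log_le_self 16 (by omega)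
  have h2 : s / 64 < 16 ^ (j + 1) := by rw [hj]; exact Nat.lt_pow_succ_log_self (by norm_num) _
  rw [pow_succ] at h2
  have h3 := R_ge j s (by omega) (by omega)
  have h4 : (s : ℝ) ≤ 1024 * 16 ^ j := by exact_mod_cast (show s ≤ 1024 * 16 ^ j by omega)
  have h5 : (16 : ℝ) ^ j ≤ (8 ^ j) ^ 2 := by
    rw [← pow_mul, mul_comm, pow_mul]; gcongr; norm_num
  have h6 : ((8 : ℝ) ^ j / 32768) ^ 2 ≤ R P 3 s ^ 2 := by gcongr
  refine ⟨by nlinarith, le_trans (by positivity) h3⟩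

theorem summ (c : ℝ) (hc : 0 < c) :
    Summable (fun s : ℕ => (s : ℝ) * Real.exp (-c * R P 3 s)) := by
  have h := (Real.summable_one_div_nat_pow.2 (show 1 < 2 by norm_num)).mul_left
    (720 * (2 ^ 40) ^ 3 / c ^ 6)
  refine Summable.of_norm_bounded_eventually_nat h ?_
  filter_upwards [eventually_ge_atTop 64] with s hs
  obtain ⟨h1, h2⟩ := R_sq s hs
  have hs0 : (0 : ℝ) < s := by exact_mod_cast (show 0 < s by omega)
  have h3 := Real.pow_div_factorial_le_exp (c * R P 3 s) (by positivity) 6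
  have h4 : (s : ℝ) ^ 3 ≤ (2 ^ 40 * R P 3 s ^ 2) ^ 3 := by gcongr
  rw [Real.norm_of_nonneg (by positivity), neg_mul, Real.exp_neg, ← div_eq_mul_inv,
    div_le_iff₀ (Real.exp_pos _)]
  refine le_trans ?_ (mul_le_mul_of_nonneg_left h3 (by positivity))
  have e : (720 : ℝ) * (2 ^ 40) ^ 3 / c ^ 6 * (1 / s ^ 2) * ((c * R P 3 s) ^ 6 / (Nat.factorial 6 : ℕ))
      = (2 ^ 40 * R P 3 s ^ 2) ^ 3 / s ^ 2 := by
    simp only [Nat.factorial]; push_cast; field_simp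
  rw [e, le_div_iff₀ (by positivity)]
  linarith

theorem tail (ω : ℕ → Bool) (m : ℕ) : ∃ δ : ℝ, 0 ≤ δ ∧ δ ≤ 1 / 2 ^ m ∧
    XX ω = ∑ n ∈ Finset.range m, (if ω (n + 1) then (1 : ℝ) else 0) / 2 ^ (n + 1) + δ := by
  have hg : ∀ m : ℕ, HasSum (fun n : ℕ => (1 : ℝ) / 2 ^ (n + m + 1)) (1 / 2 ^ m) := by
    intro m
    have := (hasSum_geometric_two' (1 / 2 ^ m : ℝ))
    have e : (fun n : ℕ => (1 : ℝ) / 2 ^ (n + m + 1)) = fun n : ℕ => 1 / 2 ^ m / 2 / 2 ^ n := by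
      funext n; rw [pow_succ, pow_add]; field_simp
    rw [e]; exact this
  have hle : ∀ n : ℕ, (if ω (n + 1) then (1 : ℝ) else 0) / 2 ^ (n + 1) ≤ 1 / 2 ^ (n + 1) := by
    intro n; gcongr; split_ifs <;> norm_num
  have hnn : ∀ n : ℕ, 0 ≤ (if ω (n + 1) then (1 : ℝ) else 0) / 2 ^ (n + 1) := by
    intro n; split_ifs <;> positivity
  have hs : Summable fun n : ℕ => (if ω (n + 1) then (1 : ℝ) else 0) / 2 ^ (n + 1) :=
    Summable.of_nonneg_of_le hnn hle (hg 0).summable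
  refine ⟨_, tsum_nonneg fun n => hnn (n + m), ?_, (hs.sum_add_tsum_nat_add m).symm⟩
  rw [← (hg m).tsum_eq]
  exact ((summable_nat_add_iff m).2 hs).tsum_le_tsum (fun n => hle (n + m)) (hg m).summable

theorem zero_digit (ω : ℕ → Bool) (N : ℕ) (h : ∀ n, N ≤ n → n < 8 * N → ω n = false)
    (n : ℕ) (h1 : 3 * N < n) (h2 : n + 4 ≤ 8 * N) : digit 2 (XX ω ^ 3) n = 0 := by
  obtain ⟨δ, d0, d1, hX⟩ := tail ω (8 * N - 1)
  obtain ⟨ε, e0, e1, hX1⟩ := tail ω 0
  have hA : ∃ A : ℕ, ∑ n ∈ Finset.range (8 * N - 1),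
      (if ω (n + 1) then (1 : ℝ) else 0) / 2 ^ (n + 1) = A / 2 ^ N := by
    refine ⟨∑ n ∈ Finset.range (8 * N - 1), if ω (n + 1) then 2 ^ (N - (n + 1)) else 0, ?_⟩
    push_cast
    rw [Finset.sum_div]
    refine Finset.sum_congr rfl fun i hi => ?_
    rw [Finset.mem_range] at hi
    split_ifs with hw
    · have : i + 1 < N := by
        by_contra hn
        rw [h (i + 1) (by omega) (by omega)] at hw
        exact Bool.false_ne_true hw
      obtain ⟨t, rfl⟩ : ∃ t, N = t + (i + 1) := ⟨N - (i + 1), by omega⟩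
      rw [Nat.add_sub_cancel, pow_add 2 t]; field_simp
    · simp
  obtain ⟨A, hA⟩ := hA
  rw [hA] at hX
  simp only [Finset.range_zero, Finset.sum_empty, pow_zero, zero_add, div_one] at hX1 e1
  obtain ⟨a, ha⟩ : ∃ a : ℝ, a = A / 2 ^ N := ⟨_, rfl⟩
  have a0 : 0 ≤ a := by rw [ha]; positivity
  rw [← ha] at hX
  have a1 : a + δ ≤ 1 := by linarith
  have k1 : (a + δ) ^ 3 ≤ a ^ 3 + 7 * δ := by
    have : a ^ 2 ≤ 1 := by nlinarith
    have : a * δ ≤ 1 := by nlinarith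
    have : δ ^ 2 ≤ 1 := by nlinarith
    nlinarith
  have k2 : a ^ 3 ≤ (a + δ) ^ 3 := by gcongr; linarith
  obtain ⟨t, rfl⟩ : ∃ t, n = 3 * N + 1 + t := ⟨n - (3 * N + 1), by omega⟩
  have k3 : a ^ 3 * 2 ^ (3 * N + 1 + t) = ((2 * (A ^ 3 * 2 ^ t) : ℤ) : ℝ) := by
    rw [ha, pow_add, pow_add, mul_comm 3 N, pow_mul]; push_cast; field_simp
  have k4 : δ * 2 ^ (3 * N + 1 + t) ≤ 1 / 8 := by
    have : (2 : ℝ) ^ (3 * N + 1 + t + 3) ≤ 2 ^ (8 * N - 1) :=
      pow_le_pow_right₀ (by norm_num) (by omega)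
    rw [le_div_iff₀ (by positivity)] at d1
    rw [pow_add] at this
    nlinarith
  have hp : (0 : ℝ) < 2 ^ (3 * N + 1 + t) := by positivity
  have : ⌊XX ω ^ 3 * ((2 : ℕ) : ℝ) ^ (3 * N + 1 + t)⌋ = 2 * (A ^ 3 * 2 ^ t) := by
    rw [Int.floor_eq_iff, ← k3, hX]
    push_cast
    constructor <;> nlinarith
  unfold digit
  rw [this]; simp

theorem notNormal (ω : ℕ → Bool) (h : ∀ k n, 16 ^ k ≤ n → n < 8 * 16 ^ k → ω n = false) :
    ¬ AbsNormal (XX ω ^ 3) := by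
  intro hn
  have h1 := hn 2 le_rfl 1 le_rfl (fun _ => 0)
  have h2 := h1.eventually (gt_mem_nhds (show 1 / ((2 : ℕ) : ℝ) ^ 1 < 0.55 by norm_num))
  obtain ⟨N0, hN0⟩ := eventually_atTop.1 h2
  obtain ⟨N, hN⟩ : ∃ N, N = 16 ^ (N0 + 3) := ⟨_, rfl⟩
  have hb : N0 + 3 < N := by rw [hN]; exact Nat.lt_pow_self (by norm_num)
  have h3 := hN0 (8 * N - 4) (by omega)
  have h4 : (Finset.Icc (3 * N + 1) (8 * N - 4)).card ≤ ((Finset.Icc 1 (8 * N - 4)).filter
      (fun n => ∀ i : Fin 1, digit 2 (XX ω ^ 3) (n + i.val) = (((0 : Fin 2)).val : ℤ))).card := by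
    apply Finset.card_le_card
    intro n hn
    rw [Finset.mem_Icc] at hn
    rw [Finset.mem_filter, Finset.mem_Icc]
    refine ⟨by omega, fun i => ?_⟩
    have := i.2
    exact zero_digit ω N (by rw [hN]; exact h _) _ (by omega) (by omega)
  rw [Nat.card_Icc] at h4
  have h5 : (0 : ℝ) < ((8 * N - 4 : ℕ) : ℝ) := by exact_mod_cast (show 0 < 8 * N - 4 by omega)
  rw [div_lt_iff₀ h5] at h3
  have h6 : (((8 * N - 4 + 1 - (3 * N + 1) : ℕ)) : ℝ) < 0.55 * ((8 * N - 4 : ℕ) : ℝ) :=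
    lt_of_le_of_lt (Nat.cast_le.2 h4) h3
  have h7 : 11 * (8 * N - 4) ≤ 20 * (8 * N - 4 + 1 - (3 * N + 1)) := by omega
  have h8 : (11 : ℝ) * ((8 * N - 4 : ℕ) : ℝ) ≤ 20 * ((8 * N - 4 + 1 - (3 * N + 1) : ℕ) : ℝ) := by
    exact_mod_cast h7
  linarith

theorem prob : law P {ω | AbsNormal (XX ω ^ 3)} ≤ ENNReal.ofReal (7 / 8) := by
  have hsub : {ω | AbsNormal (XX ω ^ 3)} ⊆
      ⋃ k : ℕ, ⋃ n ∈ Finset.Ico (16 ^ k) (8 * 16 ^ k), {ω : ℕ → Bool | ω n = true} := by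
    intro ω hω
    by_contra hc
    refine notNormal ω (fun k n h1 h2 => ?_) hω
    simp only [Set.mem_iUnion, not_exists, Finset.mem_Ico, Set.mem_ofPred_eq] at hc
    simpa using hc k n ⟨h1, h2⟩
  have h1 : ∀ n, law P {ω : ℕ → Bool | ω n = true} = ENNReal.ofReal (pp n) := by
    intro n
    have := (measurePreserving_eval_infinitePi
      (fun n => bernoulliMeasure true false (P n)) n).measure_preimage
      (s := {true}) (measurableSet_singleton _).nullMeasurableSet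
    rw [bernoulliMeasure_apply_of_mem_of_notMem _ (measurableSet_singleton _) rfl (by simp)] at this
    refine Eq.trans this ?_
    rw [ENNReal.ofReal_eq_coe_nnreal (pp_pos n)]; rfl
  have h2 : ∀ k : ℕ, law P (⋃ n ∈ Finset.Ico (16 ^ k) (8 * 16 ^ k), {ω : ℕ → Bool | ω n = true})
      ≤ ENNReal.ofReal (7 / 8 / 2 / 2 ^ k) := by
    intro k
    refine (measure_biUnion_finset_le _ _).trans (le_of_eq ?_)
    simp only [h1]
    rw [← ENNReal.ofReal_sum_of_nonneg fun n _ => pp_pos n]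
    congr 1
    rw [Finset.sum_congr rfl (g := fun _ => (1 : ℝ) / (16 * 32 ^ k)), Finset.sum_const,
      Nat.card_Ico, show 8 * 16 ^ k - 16 ^ k = 7 * 16 ^ k by omega, nsmul_eq_mul]
    · push_cast
      have e1 : (32 : ℝ) ^ k = 16 ^ k * 2 ^ k := by rw [← mul_pow]; norm_num
      rw [e1]; field_simp; norm_num
    · intro n hn
      rw [Finset.mem_Ico] at hn
      unfold pp
      rw [log_eq k n hn.1 (by omega), if_pos hn.2]
  refine (measure_mono hsub).trans ((measure_iUnion_le _).trans ?_)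
  refine (ENNReal.tsum_le_tsum h2).trans (le_of_eq ?_)
  rw [← ENNReal.ofReal_tsum_of_nonneg (fun k => by positivity)
    (hasSum_geometric_two' (7 / 8 : ℝ)).summable, (hasSum_geometric_two' (7 / 8 : ℝ)).tsum_eq]

theorem result : ∃ (d : ℕ) (p : ℕ → unitInterval) (Q : Polynomial ℝ),
    d = 3 ∧ Q = Polynomial.X ^ 3 ∧ Q.natDegree = d ∧
    (∀ c : ℝ, 0 < c → Summable (fun s : ℕ => (s : ℝ) * Real.exp (-c * R p d s))) ∧
    law p {ω | AbsNormal (Q.eval (XX ω))} ≤ 7 / 8 := by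
  refine ⟨3, P, _, rfl, rfl, by simp, summ, ?_⟩
  simp only [Polynomial.eval_pow, Polynomial.eval_X]
  refine prob.trans (le_of_eq ?_)
  rw [ENNReal.ofReal_div_of_pos (by norm_num)]; simp

end Pool.Agent.Results.MP_28bf3c_nt.No
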